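import Pool.Agent.BOG.Stmts

/-! Row CUT of BOG. -/

set_option autoImplicit false

namespace Pool.Agent.BOG.H16

universe v w

theorem one_cut {K : Type v} [Field K] {V W : Type v} [AddCommGroup V] [Module K V]
    [AddCommGroup W] [Module K W] (U : Submodule K V) [Module.Finite K U] (f : V →ₗ[K] W) :
    Module.finrank K U = Module.finrank K (U.map f) +
      Module.finrank K (U ⊓ LinearMap.ker f : Submodule K V) := by
  have h := LinearMap.finrank_range_add_finrank_ker (f.domRestrict U)
  rw [LinearMap.range_domRestrict, LinearMap.ker_domRestrict] at h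
  have h2 := Submodule.finrank_map_subtype_eq U ((LinearMap.ker f).comap U.subtype)
  rw [Submodule.map_comap_subtype] at h2
  rw [h2]
  exact h.symm

theorem cut : CutStmt.{v, w} := by
  classical
  intro K _ V _ _ W _ _ U _ σ s f D
  induction s using Finset.induction_on with
  | empty =>
    intro _
    have h : U ⊓ ⨅ i ∈ (∅ : Finset σ), LinearMap.ker (f i) = U := by
      have h1 : (⨅ i ∈ (∅ : Finset σ), LinearMap.ker (f i)) = ⊤ := by simp
      rw [h1, inf_top_eq]
    rw [h, Finset.sum_empty, add_zero]
  | insert a s ha ih =>
    intro hD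
    have h1 := ih fun i hi => hD i (Finset.mem_insert_of_mem hi)
    set U' : Submodule K V := U ⊓ ⨅ i ∈ s, LinearMap.ker (f i) with hU'
    have hle : U' ≤ U := inf_le_left
    have : Module.Finite K U' := Submodule.finiteDimensional_of_le hle
    have h2 := one_cut U' (f a)
    have h3 : Module.finrank K (U'.map (f a)) ≤ D a := by
      refine le_trans ?_ (hD a (Finset.mem_insert_self a s))
      exact Submodule.finrank_mono (Submodule.map_mono hle)
    have h4 : U ⊓ ⨅ i ∈ insert a s, LinearMap.ker (f i) = U' ⊓ LinearMap.ker (f a) := by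
      rw [Finset.iInf_insert, hU', inf_assoc, inf_comm (LinearMap.ker (f a))]
    rw [h4, Finset.sum_insert ha]
    omega

end Pool.Agent.BOG.H16
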